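import Pool.Agent.Helper29.E3.St1

set_option autoImplicit false

namespace Pool.Agent.Helper94.E3

open Finset ArithmeticFunction
open Pool.Agent.Helper48.BK (ex th lz Vz Pz gs nd Apx AdN Sol thd)
open Pool.Agent.Helper49.PC
open Pool.Agent.Helper29.E3
open scoped ComplexConjugate

theorem nd_le_half (t : ℝ) : nd t ≤ 1 / 2 := abs_sub_round t

theorem nd_nonneg (t : ℝ) : 0 ≤ nd t := abs_nonneg _

theorem nd_neg_le (t : ℝ) : nd (-t) ≤ nd t := by
  have h := round_le (-t) (-round t)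
  calc nd (-t) = |-t - round (-t)| := rfl
    _ ≤ |-t - ((-round t : ℤ) : ℝ)| := h
    _ = |t - round t| := by
        rw [← abs_neg]
        congr 1
        push_cast
        ring
    _ = nd t := rfl

theorem nd_neg (t : ℝ) : nd (-t) = nd t := by
  apply le_antisymm (nd_neg_le t)
  have := nd_neg_le (-t)
  rwa [neg_neg] at this

theorem gs_neg (M t : ℝ) : gs M (-t) = gs M t := by
  unfold gs
  rw [nd_neg]

theorem nd_sub_one (t : ℝ) : nd (t - 1) = nd t := by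
  unfold nd
  rw [round_sub_one]
  congr 1
  push_cast
  ring

theorem nd_small {x : ℝ} (h0 : 0 ≤ x) (h1 : x ≤ 1 / 2) : nd x = x := by
  unfold nd
  rw [abs_sub_round_eq_min]
  have hf : Int.fract x = x := Int.fract_eq_self.2 ⟨h0, by linarith⟩
  rw [hf]
  exact min_eq_left (by linarith)

theorem gs_scale (D : ℕ) (hD : 1 ≤ D) (M t : ℝ) : gs ((D : ℝ) * M) (nd t / D) = D * gs M t := by
  have hD0 : (0 : ℝ) < D := by exact_mod_cast hD
  have hD1 : (1 : ℝ) ≤ D := by exact_mod_cast hD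
  have h1 : nd (nd t / D) = nd t / D := by
    apply nd_small (div_nonneg (nd_nonneg t) hD0.le)
    rw [div_le_iff₀ hD0]
    have := nd_le_half t
    nlinarith
  have h2 : (D : ℝ) * M * (nd t / D) = M * nd t := by
    field_simp
  unfold gs
  rw [h1, h2]
  split_ifs with h
  · rfl
  · rw [one_div_div, mul_one_div]

theorem hPTQ (hGNP : StGNP) (hGHP : StGHP) : StPTQ := by
  intro M D q θ hD hq
  set g := Nat.gcd D q with hg
  set q' := q / g with hq'
  have hg1 : 1 ≤ g := Nat.gcd_pos_of_pos_left _ hD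
  have hq'1 : 1 ≤ q' := by
    rw [hq', Nat.one_le_div_iff hg1]
    exact Nat.le_of_dvd hq (Nat.gcd_dvd_right D q)
  have hD0 : (0 : ℝ) < D := by exact_mod_cast hD
  have hq0 : (0 : ℝ) < q := by exact_mod_cast hq
  have hq'0 : (0 : ℝ) < q' := by exact_mod_cast hq'1
  -- the inner sums
  have h1 : ∀ h ∈ range q, ∑ j ∈ range D,
      gs ((D * M : ℕ) : ℝ) ((θ + j) / D - (h : ℝ) / q) ^ 2 ≤
      (D : ℝ) ^ 2 * gs M (θ - (D : ℝ) * h / q) ^ 2 + 16 * (D : ℝ) ^ 2 := by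
    intro h _
    have e1 : ∀ j ∈ range D, gs ((D * M : ℕ) : ℝ) ((θ + j) / D - (h : ℝ) / q) ^ 2 =
        gs ((D * M : ℕ) : ℝ) (((θ - (D : ℝ) * h / q) + j) / D) ^ 2 := by
      intro j _
      congr 2
      field_simp
      ring
    rw [Finset.sum_congr rfl e1]
    refine (hGNP D (θ - (D : ℝ) * h / q) ((D * M : ℕ) : ℝ) hD (by positivity)).trans ?_
    rw [Nat.cast_mul, gs_scale D hD, mul_pow]
  have h2 : ∑ h ∈ range q, gs M (θ - (D : ℝ) * h / q) ^ 2 =
      (g : ℝ) * ∑ a ∈ range q', gs M (θ - (a : ℝ) / (q' : ℕ)) ^ 2 := by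
    have := hGHP D q (fun t => gs M (θ - t) ^ 2) hD hq (fun t => by
      have e2 : θ - (t + 1) = (θ - t) - 1 := by ring
      simp only [e2]
      unfold gs
      rw [nd_sub_one])
    exact this
  have h3 : ∑ a ∈ range q', gs M (θ - (a : ℝ) / (q' : ℕ)) ^ 2 ≤
      ((q' : ℕ) : ℝ) ^ 2 * (gs ((M : ℝ) / (q' : ℕ)) ((q' : ℕ) * θ) ^ 2 + 16) := by
    have e3 : ∀ a ∈ range q', gs M (θ - (a : ℝ) / (q' : ℕ)) ^ 2 =
        gs M ((-((q' : ℕ) * θ) + a) / (q' : ℕ)) ^ 2 := by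
      intro a _
      rw [← gs_neg]
      congr 2
      field_simp
      ring
    rw [Finset.sum_congr rfl e3]
    refine (hGNP q' (-((q' : ℕ) * θ)) (M : ℝ) hq'1 (by positivity)).trans ?_
    rw [nd_neg]
    have e4 : gs (M : ℝ) (nd ((q' : ℕ) * θ) / (q' : ℕ)) =
        (q' : ℕ) * gs ((M : ℝ) / (q' : ℕ)) ((q' : ℕ) * θ) := by
      rw [← gs_scale q' hq'1]
      congr 1
      field_simp
    rw [e4, mul_pow]
    apply le_of_eq
    ring
  calc ∑ h ∈ range q, ∑ j ∈ range D, gs ((D * M : ℕ) : ℝ) ((θ + j) / D - (h : ℝ) / q) ^ 2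
      ≤ ∑ h ∈ range q, ((D : ℝ) ^ 2 * gs M (θ - (D : ℝ) * h / q) ^ 2 + 16 * (D : ℝ) ^ 2) :=
        Finset.sum_le_sum h1
    _ = (D : ℝ) ^ 2 * ((g : ℝ) * ∑ a ∈ range q', gs M (θ - (a : ℝ) / (q' : ℕ)) ^ 2) +
          16 * q * (D : ℝ) ^ 2 := by
        rw [Finset.sum_add_distrib, ← Finset.mul_sum, h2, Finset.sum_const, card_range,
          nsmul_eq_mul]
        ring
    _ ≤ (D : ℝ) ^ 2 * ((g : ℝ) * (((q' : ℕ) : ℝ) ^ 2 *
          (gs ((M : ℝ) / (q' : ℕ)) ((q' : ℕ) * θ) ^ 2 + 16))) + 16 * q * (D : ℝ) ^ 2 := by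
        gcongr
    _ = _ := by ring

end Pool.Agent.Helper94.E3
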